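import Pool.Agent.P8H79.RC.Stm4
import Pool.Agent.P8H1.RC.Emb

set_option autoImplicit false

/-!
Package ALPHA of the project RC: at most one link has a cycle.
-/

namespace Pool.Agent.P8H20.RC

open Pool.Agent.P8H79.RC

/-- a link which is not acyclic contains a long induced cycle -/
theorem exists_cyc {V : Type} [Fintype V] {G : SimpleGraph V} {N : ℕ} (h4 : G.CliqueFree 4)
    (hsh : NoShort G N) {v : V} (hv : ¬ (link G v).IsAcyclic) :
    ∃ r : ℕ, 4 ≤ r ∧ N ≤ 2 * r ∧ ∃ c : SimpleGraph.cycleGraph r ↪g G, ∀ i, G.Adj v (c i) := by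
  classical
  obtain ⟨r, hr3, ⟨e⟩⟩ := Pool.Agent.P8H1.RC.hole (G.neighborSet v) (link G v) hv
  let c' : SimpleGraph.cycleGraph r ↪g G :=
    e.trans (SimpleGraph.Embedding.induce (G.neighborSet v))
  have hc' : ∀ i, G.Adj v (c' i) := fun i => (e i).2
  have hr4 : 4 ≤ r := by
    by_contra hlt
    have hr : r = 3 := by omega
    subst hr
    have a01 : G.Adj (c' 0) (c' 1) := c'.map_rel_iff.2 (by
      rw [Pool.Agent.P8H1.RC.cyc_adj (by norm_num)]; decide)
    have a12 : G.Adj (c' 1) (c' 2) := c'.map_rel_iff.2 (by
      rw [Pool.Agent.P8H1.RC.cyc_adj (by norm_num)]; decide)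
    have a02 : G.Adj (c' 0) (c' 2) := c'.map_rel_iff.2 (by
      rw [Pool.Agent.P8H1.RC.cyc_adj (by norm_num)]; decide)
    have h3 : G.IsNClique 3 {c' 0, c' 1, c' 2} :=
      SimpleGraph.is3Clique_triple_iff.2 ⟨a01, a02, a12⟩
    refine h4 _ (h3.insert (a := v) ?_)
    intro b hb
    simp only [Finset.mem_insert, Finset.mem_singleton] at hb
    rcases hb with rfl | rfl | rfl
    · exact hc' 0
    · exact hc' 1
    · exact hc' 2
  refine ⟨r, hr4, ?_, c', hc'⟩
  by_contra h
  exact (hsh r hr4 (by omega)).false c'

/-- counting the positions on the cycle -/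
theorem pos_bound {V : Type} [Fintype V] [DecidableEq V] {l : ℕ} (hl : 0 < l) {q : ZMod l → V}
    (hq : Function.Injective q) (X : Finset V) (k : ℕ) (h : {i | q i ∈ X}.ncard ≤ k) :
    l + X.card ≤ k + Fintype.card V := by
  have : NeZero l := ⟨hl.ne'⟩
  have h1 : {i | q i ∈ X}.ncard + {i | q i ∈ X}ᶜ.ncard = l := by
    rw [Set.ncard_add_ncard_compl, Nat.card_eq_fintype_card, ZMod.card]
  have h2 : {i | q i ∈ X}ᶜ.ncard ≤ (Xᶜ : Finset V).card := by
    rw [← Set.ncard_coe_finset]
    refine Set.ncard_le_ncard_of_injOn q ?_ hq.injOn (Set.toFinite _)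
    intro i hi
    simpa using hi
  have h3 := Finset.card_add_card_compl X
  omega

open Classical in
/-- closed neighbourhood -/
noncomputable def nbh {V : Type} [Fintype V] (G : SimpleGraph V) (v : V) : Finset V :=
  Finset.univ.filter fun x => x = v ∨ G.Adj v x

theorem mem_nbh {V : Type} [Fintype V] {G : SimpleGraph V} {v x : V} :
    x ∈ nbh G v ↔ x = v ∨ G.Adj v x := by
  classical
  unfold nbh
  rw [Finset.mem_filter]
  simp

open Classical in
/-- the cycle with its centre -/
theorem cyc_card {V : Type} [Fintype V] {G : SimpleGraph V} {v : V} {r : ℕ}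
    (c : SimpleGraph.cycleGraph r ↪g G) (hc : ∀ i, G.Adj v (c i)) : r + 1 ≤ (nbh G v).card := by
  have h1 : (insert v (Finset.univ.image c)).card = r + 1 := by
    rw [Finset.card_insert_of_notMem, Finset.card_image_of_injective _ c.injective,
      Finset.card_univ, Fintype.card_fin]
    rw [Finset.mem_image]
    rintro ⟨i, -, h⟩
    exact (hc i).ne h.symm
  rw [← h1]
  refine Finset.card_le_card ?_
  intro x hx
  rw [Finset.mem_insert, Finset.mem_image] at hx
  rw [mem_nbh]
  rcases hx with rfl | ⟨i, -, rfl⟩
  · exact Or.inl rfl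
  · exact Or.inr (hc i)

theorem alpha : S_ALPHA := by
  classical
  intro V _ G hN h4 hsh l hl7 hl q hq u v huv hv
  by_contra hu
  obtain ⟨r, hr4, hr, c, hc⟩ := exists_cyc h4 hsh hv
  obtain ⟨r', hr4', hr', c', hc'⟩ := exists_cyc h4 hsh hu
  have hl0 : 0 < l := by omega
  have b1 : ∀ w, l + (nbh G w).card ≤ 3 + Fintype.card V := by
    intro w
    refine pos_bound hl0 hq.inj _ 3 ?_
    refine le_trans (le_of_eq ?_) (hq.ball1 w)
    congr 1
    ext i
    simp only [Set.mem_ofPred_eq, mem_nbh]
  have cv := cyc_card c hc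
  have cu := cyc_card c' hc'
  have b1v := b1 v
  have b1u := b1 u
  have hr'N : r' + 4 < Fintype.card V := by omega
  have hcardU : (nbh G u ∪ nbh G v).card + (nbh G u ∩ nbh G v).card
      = (nbh G u).card + (nbh G v).card := Finset.card_union_add_card_inter _ _
  by_cases hadj : G.Adj u v
  · -- adjacent
    have hb : l + (nbh G u ∪ nbh G v).card ≤ 4 + Fintype.card V := by
      refine pos_bound hl0 hq.inj _ 4 ?_
      refine le_trans (le_of_eq ?_) (hq.ball2 u v hadj)
      congr 1
      ext i
      simp only [Set.mem_ofPred_eq, Finset.mem_union, mem_nbh]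
      tauto
    -- the elements of the second cycle in the closed neighbourhood of `v`
    have h3 : (Finset.univ.filter fun i : Fin r' => c' i ∈ nbh G v).card ≤ 3 := by
      by_cases hex : ∃ j, c' j = v
      · obtain ⟨j, hj⟩ := hex
        obtain ⟨m, rfl⟩ : ∃ m, r' = m + 3 := ⟨r' - 3, by omega⟩
        have hdeg := SimpleGraph.cycleGraph_degree_three_le (n := m) (v := j)
        have hsub : (Finset.univ.filter fun i : Fin (m + 3) => c' i ∈ nbh G v) ⊆
            insert j ((SimpleGraph.cycleGraph (m + 3)).neighborFinset j) := by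
          intro i hi
          rw [Finset.mem_filter, mem_nbh] at hi
          rw [Finset.mem_insert, SimpleGraph.mem_neighborFinset]
          rcases hi.2 with h | h
          · left
            exact c'.injective (by rw [h, hj])
          · right
            rw [← hj] at h
            exact c'.map_rel_iff.1 h
        refine (Finset.card_le_card hsub).trans ((Finset.card_insert_le _ _).trans ?_)
        rw [SimpleGraph.card_neighborFinset_eq_degree]
        have : (SimpleGraph.cycleGraph (m + 3)).degree j = 2 := by convert hdeg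
        omega
      · push Not at hex
        have hnb := Pool.Agent.P8H1.RC.nb2 V G (Fintype.card V) r' h4 hsh hr4' hr'N c' u v hc' hadj hex
        refine le_trans (Finset.card_le_one.2 ?_) (by norm_num : 1 ≤ 3)
        intro i hi j hj
        rw [Finset.mem_filter, mem_nbh] at hi hj
        have hi' : G.Adj v (c' i) := hi.2.resolve_left (hex i)
        have hj' : G.Adj v (c' j) := hj.2.resolve_left (hex j)
        exact hnb i j hi' hj'
    have h5 : r' ≤ 3 + (nbh G u \ nbh G v).card := by
      have e1 : (Finset.univ.filter fun i : Fin r' => c' i ∈ nbh G v).card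
          + (Finset.univ.filter fun i : Fin r' => ¬ c' i ∈ nbh G v).card = r' := by
        rw [Finset.card_filter_add_card_filter_not, Finset.card_univ, Fintype.card_fin]
      have e2 : (Finset.univ.filter fun i : Fin r' => ¬ c' i ∈ nbh G v).card ≤
          (nbh G u \ nbh G v).card := by
        refine Finset.card_le_card_of_injOn c' ?_ c'.injective.injOn
        intro i hi
        rw [Finset.mem_coe, Finset.mem_filter] at hi
        rw [Finset.mem_coe, Finset.mem_sdiff, mem_nbh]
        exact ⟨Or.inr (hc' i), hi.2⟩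
      omega
    have h6 : (nbh G u ∪ nbh G v).card = (nbh G u \ nbh G v).card + (nbh G v).card :=
      (Finset.card_sdiff_add_card _ _).symm
    omega
  · -- not adjacent
    have hint : (nbh G u ∩ nbh G v).card ≤ 2 := by
      have h1 := Pool.Agent.P8H1.RC.nb1 V G h4 (hsh 4 le_rfl (by omega)) u v huv hadj
      refine le_trans ?_ h1
      unfold cc
      rw [← Set.ncard_coe_finset]
      refine Set.ncard_le_ncard ?_ (Set.toFinite _)
      intro x hx
      rw [Finset.mem_coe, Finset.mem_inter, mem_nbh, mem_nbh] at hx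
      obtain ⟨hxu, hxv⟩ := hx
      rcases hxu with rfl | hxu
      · rcases hxv with h | h
        · exact absurd h huv
        · exact absurd h.symm hadj
      · rcases hxv with rfl | hxv
        · exact absurd hxu hadj
        · exact ⟨hxu, hxv⟩
    have hb : l + (nbh G u ∪ nbh G v).card ≤ 6 + Fintype.card V := by
      refine pos_bound hl0 hq.inj _ 6 ?_
      have e1 : {i | q i ∈ nbh G u ∪ nbh G v} ⊆
          {i | q i = u ∨ G.Adj u (q i)} ∪ {i | q i = v ∨ G.Adj v (q i)} := by
        intro i hi
        simp only [Set.mem_ofPred_eq, Finset.mem_union, mem_nbh] at hi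
        exact hi
      have : NeZero l := ⟨hl0.ne'⟩
      have e2 := Set.ncard_le_ncard e1 (Set.toFinite _)
      have e3 := Set.ncard_union_le {i | q i = u ∨ G.Adj u (q i)} {i | q i = v ∨ G.Adj v (q i)}
      have e4 := hq.ball1 u
      have e5 := hq.ball1 v
      omega
    omega

end Pool.Agent.P8H20.RC
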