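import Pool.Agent.P8H79.RC.Stm5
import Pool.Agent.P8H20.RC.Alpha

set_option autoImplicit false

/-!
Package ALPHA6 of the project RC: at most one link has a cycle.
-/

namespace Pool.Agent.P8H20.RC

open Pool.Agent.P8H79.RC

/-- the vertex set of an induced cycle -/
theorem range_iso {V : Type} {G : SimpleGraph V} {L : ℕ} (e : SimpleGraph.cycleGraph L ↪g G)
    (S : Finset V) (hS : (S : Set V) = Set.range e) :
    Nonempty (SimpleGraph.cycleGraph L ≃g G.induce (S : Set V)) := by
  rw [hS]
  refine ⟨⟨Equiv.ofInjective e e.injective, ?_⟩⟩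
  intro a b
  exact e.map_rel_iff

theorem holes_ge {V : Type} [Fintype V] (G : SimpleGraph V) (L : ℕ) (T : Finset (Finset V))
    (hT : ∀ S ∈ T, S.card = L ∧ Nonempty (SimpleGraph.cycleGraph L ≃g G.induce (S : Set V))) :
    T.card ≤ holes G L := by
  classical
  unfold holes
  refine Finset.card_le_card fun S hS => ?_
  rw [Finset.mem_filter, Finset.mem_powersetCard]
  exact ⟨⟨Finset.subset_univ _, (hT S hS).1⟩, (hT S hS).2⟩

/-- three induced cycles of length `L` with different vertex sets -/
theorem three_holes {V : Type} [Fintype V] [DecidableEq V] {G : SimpleGraph V} {L : ℕ}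
    (a b c : SimpleGraph.cycleGraph L ↪g G)
    (hab : Set.range a ≠ Set.range b) (hac : Set.range a ≠ Set.range c)
    (hbc : Set.range b ≠ Set.range c) : 3 ≤ holes G L := by
  have hco : ∀ e : SimpleGraph.cycleGraph L ↪g G,
      ((Finset.univ.image e : Finset V) : Set V) = Set.range e := by
    intro e
    simp
  have hne : ∀ e f : SimpleGraph.cycleGraph L ↪g G, Set.range e ≠ Set.range f →
      (Finset.univ.image e : Finset V) ≠ Finset.univ.image f := by
    intro e f h h2
    apply h
    rw [← hco e, ← hco f, h2]
  have h3 : ({Finset.univ.image a, Finset.univ.image b, Finset.univ.image c} :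
      Finset (Finset V)).card = 3 :=
    Finset.card_eq_three.2 ⟨_, _, _, hne a b hab, hne a c hac, hne b c hbc, rfl⟩
  rw [← h3]
  refine holes_ge G L _ ?_
  have hone : ∀ e : SimpleGraph.cycleGraph L ↪g G, (Finset.univ.image e : Finset V).card = L ∧
      Nonempty (SimpleGraph.cycleGraph L ≃g
        G.induce ((Finset.univ.image e : Finset V) : Set V)) := by
    intro e
    refine ⟨?_, range_iso e _ (hco e)⟩
    rw [Finset.card_image_of_injective _ e.injective, Finset.card_univ, Fintype.card_fin]
  intro S hS
  simp only [Finset.mem_insert, Finset.mem_singleton] at hS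
  rcases hS with rfl | rfl | rfl
  · exact hone a
  · exact hone b
  · exact hone c

theorem adj6 (i j : Fin 6) : (j = i + 1 ∨ i = j + 1) ↔
    (i.val + 1 = j.val ∨ j.val + 1 = i.val ∨ (i.val = 0 ∧ j.val + 1 = 6) ∨
      (j.val = 0 ∧ i.val + 1 = 6)) := by
  revert i j
  decide

/-- the cycle of `QGood6` of length six as an embedding -/
theorem emb6 {V : Type} {G : SimpleGraph V} {q : ZMod 6 → V} (hq : QGood6 G 6 q) :
    ∃ e : SimpleGraph.cycleGraph 6 ↪g G, Set.range e = Set.range q := by
  let e : SimpleGraph.cycleGraph 6 ↪g G :=
    { toFun := q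
      inj' := hq.inj
      map_rel_iff' := by
        intro i j
        show G.Adj (q i) (q j) ↔ _
        rw [hq.adj i j, Pool.Agent.P8H1.RC.cyc_adj (by norm_num)]
        exact adj6 i j }
  exact ⟨e, rfl⟩

theorem alpha6 : S_ALPHA6 := by
  classical
  intro V _ G hN h4 hsh hho l hl6 hl q hq u v huv hv
  by_contra hu
  obtain ⟨r, hr4, hr, c, hc⟩ := exists_cyc h4 hsh hv
  obtain ⟨r', hr4', hr', c', hc'⟩ := exists_cyc h4 hsh hu
  have hl0 : 0 < l := by omega
  have b1 : ∀ w, l + (nbh G w).card ≤ 3 + Fintype.card V := by
    intro w
    refine pos_bound hl0 hq.inj _ 3 ?_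
    refine le_trans (le_of_eq ?_) (hq.ball1 w)
    congr 1
    ext i
    simp only [Set.mem_ofPred_eq, mem_nbh]
  have cv := cyc_card c hc
  have cu := cyc_card c' hc'
  have b1v := b1 v
  have b1u := b1 u
  have hcardU : (nbh G u ∪ nbh G v).card + (nbh G u ∩ nbh G v).card
      = (nbh G u).card + (nbh G v).card := Finset.card_union_add_card_inter _ _
  have hUN : (nbh G u ∪ nbh G v).card ≤ Fintype.card V := Finset.card_le_univ _
  -- the extreme case
  have extr : l = 6 → Fintype.card V = 12 → r = 6 → r' = 6 →
      (∀ (a : SimpleGraph.cycleGraph 6 ↪g G) (b : SimpleGraph.cycleGraph 6 ↪g G),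
        (∀ i, G.Adj v (a i)) → (∀ i, G.Adj u (b i)) → Set.range a ≠ Set.range b) → False := by
    intro e1 e2 e3 e4 hne
    subst e1 e3 e4
    obtain ⟨e, he⟩ := emb6 hq
    have hz : ∀ (w : V) (a : SimpleGraph.cycleGraph 6 ↪g G), (∀ i, G.Adj w (a i)) →
        Set.range a ≠ Set.range e := by
      intro w a ha h
      have h1 : {i | q i = w ∨ G.Adj w (q i)} = Set.univ := by
        refine Set.eq_univ_of_forall fun i => ?_
        have h2 : q i ∈ Set.range a := by
          rw [h, he]
          exact ⟨i, rfl⟩
        obtain ⟨j, hj⟩ := h2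
        right
        rw [← hj]
        exact ha j
      have h3 := hq.ball1 w
      rw [h1, Set.ncard_univ, Nat.card_eq_fintype_card, ZMod.card] at h3
      omega
    have h3 := three_holes c c' e (hne c c' hc hc') (hz v c hc) (hz u c' hc')
    have h4 := hho 6 (by rw [e2])
    omega
  by_cases hadj : G.Adj u v
  · -- adjacent
    have hb : l + (nbh G u ∪ nbh G v).card ≤ 4 + Fintype.card V := by
      refine pos_bound hl0 hq.inj _ 4 ?_
      refine le_trans (le_of_eq ?_) (hq.ball2 u v hadj)
      congr 1
      ext i
      simp only [Set.mem_ofPred_eq, Finset.mem_union, mem_nbh]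
      tauto
    -- the elements of the second cycle in the closed neighbourhood of `v`
    have h3 : (Finset.univ.filter fun i : Fin r' => c' i ∈ nbh G v).card ≤ 3 := by
      by_cases hex : ∃ j, c' j = v
      · obtain ⟨j, hj⟩ := hex
        obtain ⟨m, rfl⟩ : ∃ m, r' = m + 3 := ⟨r' - 3, by omega⟩
        have hdeg := SimpleGraph.cycleGraph_degree_three_le (n := m) (v := j)
        have hsub : (Finset.univ.filter fun i : Fin (m + 3) => c' i ∈ nbh G v) ⊆
            insert j ((SimpleGraph.cycleGraph (m + 3)).neighborFinset j) := by
          intro i hi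
          rw [Finset.mem_filter, mem_nbh] at hi
          rw [Finset.mem_insert, SimpleGraph.mem_neighborFinset]
          rcases hi.2 with h | h
          · left
            exact c'.injective (by rw [h, hj])
          · right
            rw [← hj] at h
            exact c'.map_rel_iff.1 h
        refine (Finset.card_le_card hsub).trans ((Finset.card_insert_le _ _).trans ?_)
        rw [SimpleGraph.card_neighborFinset_eq_degree]
        have : (SimpleGraph.cycleGraph (m + 3)).degree j = 2 := by convert hdeg
        omega
      · push Not at hex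
        have hr'N : r' + 4 < Fintype.card V := by
          have h1 : (insert v (insert u (Finset.univ.image c'))).card = r' + 2 := by
            rw [Finset.card_insert_of_notMem, Finset.card_insert_of_notMem,
              Finset.card_image_of_injective _ c'.injective,
              Finset.card_univ, Fintype.card_fin]
            · rw [Finset.mem_image]
              rintro ⟨i, -, h⟩
              exact (hc' i).ne h.symm
            · rw [Finset.mem_insert, Finset.mem_image]
              rintro (h | ⟨i, -, h⟩)
              · exact huv h.symm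
              · exact hex i h
          have h2 : (insert v (insert u (Finset.univ.image c'))).card ≤ (nbh G u).card := by
            refine Finset.card_le_card ?_
            intro x hx
            rw [Finset.mem_insert, Finset.mem_insert, Finset.mem_image] at hx
            rw [mem_nbh]
            rcases hx with rfl | rfl | ⟨i, -, rfl⟩
            · exact Or.inr hadj
            · exact Or.inl rfl
            · exact Or.inr (hc' i)
          omega
        have hnb := Pool.Agent.P8H1.RC.nb2 V G (Fintype.card V) r' h4 hsh hr4' hr'N c' u v hc' hadj hex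
        refine le_trans (Finset.card_le_one.2 ?_) (by norm_num : 1 ≤ 3)
        intro i hi j hj
        rw [Finset.mem_filter, mem_nbh] at hi hj
        have hi' : G.Adj v (c' i) := hi.2.resolve_left (hex i)
        have hj' : G.Adj v (c' j) := hj.2.resolve_left (hex j)
        exact hnb i j hi' hj'
    have h5 : r' ≤ 3 + (nbh G u \ nbh G v).card := by
      have e1 : (Finset.univ.filter fun i : Fin r' => c' i ∈ nbh G v).card
          + (Finset.univ.filter fun i : Fin r' => ¬ c' i ∈ nbh G v).card = r' := by
        rw [Finset.card_filter_add_card_filter_not, Finset.card_univ, Fintype.card_fin]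
      have e2 : (Finset.univ.filter fun i : Fin r' => ¬ c' i ∈ nbh G v).card ≤
          (nbh G u \ nbh G v).card := by
        refine Finset.card_le_card_of_injOn c' ?_ c'.injective.injOn
        intro i hi
        rw [Finset.mem_coe, Finset.mem_filter] at hi
        rw [Finset.mem_coe, Finset.mem_sdiff, mem_nbh]
        exact ⟨Or.inr (hc' i), hi.2⟩
      omega
    have h6 : (nbh G u ∪ nbh G v).card = (nbh G u \ nbh G v).card + (nbh G v).card :=
      (Finset.card_sdiff_add_card _ _).symm
    refine extr (by omega) (by omega) (by omega) (by omega) ?_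
    intro a b ha hb hab
    -- the same cycle in both links gives a `K_4`
    have a01 : G.Adj (a 0) (a 1) := a.map_rel_iff.2 (by
      rw [Pool.Agent.P8H1.RC.cyc_adj (by norm_num)]; decide)
    have hub : ∀ i, G.Adj u (a i) := by
      intro i
      have h7 : a i ∈ Set.range b := by
        rw [← hab]
        exact ⟨i, rfl⟩
      obtain ⟨j, hj⟩ := h7
      rw [← hj]
      exact hb j
    have h3 : G.IsNClique 3 {v, a 0, a 1} :=
      SimpleGraph.is3Clique_triple_iff.2 ⟨ha 0, ha 1, a01⟩
    refine h4 _ (h3.insert (a := u) ?_)
    intro x hx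
    simp only [Finset.mem_insert, Finset.mem_singleton] at hx
    rcases hx with rfl | rfl | rfl
    · exact hadj
    · exact hub 0
    · exact hub 1
  · -- not adjacent
    have hcc := Pool.Agent.P8H1.RC.nb1 V G h4 (hsh 4 le_rfl (by omega)) u v huv hadj
    have hint : (nbh G u ∩ nbh G v).card ≤ 2 := by
      refine le_trans ?_ hcc
      unfold cc
      rw [← Set.ncard_coe_finset]
      refine Set.ncard_le_ncard ?_ (Set.toFinite _)
      intro x hx
      rw [Finset.mem_coe, Finset.mem_inter, mem_nbh, mem_nbh] at hx
      obtain ⟨hxu, hxv⟩ := hx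
      rcases hxu with rfl | hxu
      · rcases hxv with h | h
        · exact absurd h huv
        · exact absurd h.symm hadj
      · rcases hxv with rfl | hxv
        · exact absurd hxu hadj
        · exact ⟨hxu, hxv⟩
    have hb : l + (nbh G u ∪ nbh G v).card ≤ 6 + Fintype.card V := by
      refine pos_bound hl0 hq.inj _ 6 ?_
      have e1 : {i | q i ∈ nbh G u ∪ nbh G v} ⊆
          {i | q i = u ∨ G.Adj u (q i)} ∪ {i | q i = v ∨ G.Adj v (q i)} := by
        intro i hi
        simp only [Set.mem_ofPred_eq, Finset.mem_union, mem_nbh] at hi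
        exact hi
      have : NeZero l := ⟨hl0.ne'⟩
      have e2 := Set.ncard_le_ncard e1 (Set.toFinite _)
      have e3 := Set.ncard_union_le {i | q i = u ∨ G.Adj u (q i)} {i | q i = v ∨ G.Adj v (q i)}
      have e4 := hq.ball1 u
      have e5 := hq.ball1 v
      omega
    refine extr (by omega) (by omega) (by omega) (by omega) ?_
    intro a b ha hb hab
    -- six common neighbours
    have h7 : Set.range a ⊆ {x : V | G.Adj u x ∧ G.Adj v x} := by
      rintro _ ⟨i, rfl⟩
      refine ⟨?_, ha i⟩
      have h8 : a i ∈ Set.range b := by
        rw [← hab]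
        exact ⟨i, rfl⟩
      obtain ⟨j, hj⟩ := h8
      rw [← hj]
      exact hb j
    have h9 := Set.ncard_le_ncard h7 (Set.toFinite _)
    have h10 : (Set.range a).ncard = 6 := by
      rw [← Set.image_univ, Set.ncard_image_of_injective _ a.injective, Set.ncard_univ,
        Nat.card_eq_fintype_card, Fintype.card_fin]
    unfold cc at hcc
    omega

end Pool.Agent.P8H20.RC
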