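import Pool.Agent.P8H79.RC.Stm2

set_option autoImplicit false

namespace Pool.Agent.P8H20.RC

open Finset Pool.Agent.P8H79.RC

theorem vcg : S_VCG := by
  intro s t b N
  have key : ∀ N, (vec s b N).a ≡ (vec t b N).a [ZMOD (s - t)] ∧ (vec s b N).b ≡ (vec t b N).b [ZMOD (s - t)] ∧
      (vec s b N).c ≡ (vec t b N).c [ZMOD (s - t)] ∧ (vec s b N).d ≡ (vec t b N).d [ZMOD (s - t)] ∧
      (vec s b N).e ≡ (vec t b N).e [ZMOD (s - t)] ∧ (vec s b N).f ≡ (vec t b N).f [ZMOD (s - t)] ∧
      (vec s b N).g ≡ (vec t b N).g [ZMOD (s - t)] := by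
    have hst : s ≡ t [ZMOD (s - t)] := by
      apply Int.ModEq.symm
      rw [Int.modEq_iff_dvd]
    have hs1 : s - 1 ≡ t - 1 [ZMOD (s - t)] := hst.sub_right 1
    have hs2 : s - 2 ≡ t - 2 [ZMOD (s - t)] := hst.sub_right 2
    intro N
    induction N with
    | zero => exact ⟨rfl, rfl, rfl, rfl, rfl, rfl, rfl⟩
    | succ k ih =>
      obtain ⟨ha, hb, hc, hd, he, hf, hg⟩ := ih
      have e : ∀ u : ℤ, vec u b (k + 1) = stepV u (b k) (vec u b k) := fun u => rfl
      rw [e, e]
      unfold stepV
      by_cases h : b k = true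
      · rw [if_pos h, if_pos h]
        exact ⟨hst.mul he, hst.mul hf, hb.add (hs1.mul he), ha.add (hs1.mul hf), hd.add (hs1.mul hg),
          hc.add (hs1.mul hg), (hc.add hd).add (hs2.mul hg)⟩
      · rw [if_neg h, if_neg h]
        exact ⟨hst.mul hc, hst.mul hd, ha.add (hs1.mul hc), hb.add (hs1.mul hd), hf.add (hs1.mul hg),
          he.add (hs1.mul hg), (he.add hf).add (hs2.mul hg)⟩
  exact (Int.modEq_iff_dvd.1 (key N).1.symm)

theorem cong : S_CONG := by
  intro V _ _ G hG q hq
  classical
  obtain ⟨n, rfl⟩ : ∃ n, q = n + 1 := ⟨q - 1, by omega⟩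
  obtain ⟨w₀, v₀, hr⟩ : ∃ w v, ¬ G.Reachable w v := by
    by_contra hcon
    push Not at hcon
    exact hG (SimpleGraph.Connected.mk (fun u v => hcon u v))
  let S := {C : G.Coloring (Fin (n + 1)) // C w₀ = 0 ∧ C v₀ = 0}
  let sh : (x y : Fin (n + 1)) → G.Coloring (Fin (n + 1)) → G.Coloring (Fin (n + 1)) := fun x y C =>
    SimpleGraph.Coloring.mk (fun v => if G.Reachable w₀ v then C v + x else C v + y)
      (fun {u v} huv => by
        by_cases hu : G.Reachable w₀ u
        · have hv : G.Reachable w₀ v := hu.trans huv.reachable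
          rw [if_pos hu, if_pos hv]
          intro e
          exact C.valid huv (add_right_cancel e)
        · have hv : ¬ G.Reachable w₀ v := fun h => hu (h.trans huv.symm.reachable)
          rw [if_neg hu, if_neg hv]
          intro e
          exact C.valid huv (add_right_cancel e))
  have hsh : ∀ x y C v, sh x y C v = if G.Reachable w₀ v then C v + x else C v + y :=
    fun x y C v => rfl
  have hw : G.Reachable w₀ w₀ := SimpleGraph.Reachable.refl w₀
  let e : G.Coloring (Fin (n + 1)) ≃ (Fin (n + 1) × Fin (n + 1)) × S :=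
    { toFun := fun C => ((C w₀, C v₀), ⟨sh (-C w₀) (-C v₀) C, by
        rw [hsh, hsh, if_pos hw, if_neg hr]; exact ⟨add_neg_cancel _, add_neg_cancel _⟩⟩)
      invFun := fun p => sh p.1.1 p.1.2 p.2.1
      left_inv := fun C => by
        apply DFunLike.ext
        intro v
        change sh (C w₀) (C v₀) (sh (-C w₀) (-C v₀) C) v = C v
        rw [hsh, hsh]
        split_ifs
        · exact neg_add_cancel_right _ _
        · exact neg_add_cancel_right _ _
      right_inv := fun p => by
        obtain ⟨⟨x, y⟩, C, h1, h2⟩ := p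
        have e1 : sh x y C w₀ = x := by rw [hsh, if_pos hw, h1, zero_add]
        have e2 : sh x y C v₀ = y := by rw [hsh, if_neg hr, h2, zero_add]
        refine Prod.ext (Prod.ext e1 e2) (Subtype.ext ?_)
        apply DFunLike.ext
        intro v
        change sh (-(sh x y C w₀)) (-(sh x y C v₀)) (sh x y C) v = C v
        rw [e1, e2, hsh, hsh]
        split_ifs
        · exact add_neg_cancel_right _ _
        · exact add_neg_cancel_right _ _ }
  unfold cnt
  rw [Nat.card_congr e, Nat.card_prod, Nat.card_prod, Nat.card_eq_fintype_card (α := Fin (n + 1)),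
    Fintype.card_fin, ← pow_two]
  exact Dvd.intro _ rfl

/-- colourings of a graph with a clique -/
theorem clique_dvd {W : Type} (H : SimpleGraph W) (k q : ℕ) (x : Fin k → W)
    (hx : ∀ i j, i ≠ j → H.Adj (x i) (x j)) : q.descFactorial k ∣ Nat.card (H.Coloring (Fin q)) := by
  classical
  let r : H.Coloring (Fin q) → (Fin k ↪ Fin q) := fun C => ⟨fun i => C (x i), fun i j h => by
    by_contra hne
    exact C.valid (hx i j hne) h⟩
  have hr : ∀ C i, r C i = C (x i) := fun C i => rfl
  by_cases he : Nonempty (Fin k ↪ Fin q)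
  · obtain ⟨e₀⟩ := he
    have hex : ∀ e : Fin k ↪ Fin q, ∃ σ : Equiv.Perm (Fin q), ∀ i, σ (e i) = e₀ i := by
      intro e
      let f : {y // y ∈ Set.range e} ≃ {y // y ∈ Set.range e₀} :=
        (Equiv.ofInjective e e.injective).symm.trans (Equiv.ofInjective e₀ e₀.injective)
      refine ⟨f.extendSubtype, fun i => ?_⟩
      rw [Equiv.extendSubtype_apply_of_mem f (e i) ⟨i, rfl⟩]
      change ((Equiv.ofInjective e₀ e₀.injective) ((Equiv.ofInjective e e.injective).symm ⟨e i, _⟩) : Fin q) = e₀ i
      have : (Equiv.ofInjective e e.injective).symm ⟨e i, ⟨i, rfl⟩⟩ = i := by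
        rw [Equiv.symm_apply_eq]
        rfl
      rw [this]
      rfl
    choose σ hσ using hex
    let act : Equiv.Perm (Fin q) → H.Coloring (Fin q) → H.Coloring (Fin q) := fun τ C =>
      SimpleGraph.Coloring.mk (fun v => τ (C v)) (fun {v w} h e => C.valid h (τ.injective e))
    have hact : ∀ τ C v, act τ C v = τ (C v) := fun τ C v => rfl
    have hfib : ∀ e : Fin k ↪ Fin q, Nonempty ({C // r C = e} ≃ {C // r C = e₀}) := by
      intro e
      refine ⟨{ toFun := fun C => ⟨act (σ e) C.1, ?_⟩, invFun := fun C => ⟨act (σ e).symm C.1, ?_⟩,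
                left_inv := fun C => ?_, right_inv := fun C => ?_ }⟩
      · apply DFunLike.ext
        intro i
        rw [hr, hact, ← hr, C.2, hσ]
      · apply DFunLike.ext
        intro i
        rw [hr, hact, ← hr, C.2, ← hσ e, Equiv.symm_apply_apply]
      · apply Subtype.ext
        apply DFunLike.ext
        intro v
        change (σ e).symm (σ e (C.1 v)) = C.1 v
        rw [Equiv.symm_apply_apply]
      · apply Subtype.ext
        apply DFunLike.ext
        intro v
        change σ e ((σ e).symm (C.1 v)) = C.1 v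
        rw [Equiv.apply_symm_apply]
    let E : H.Coloring (Fin q) ≃ (Fin k ↪ Fin q) × {C // r C = e₀} :=
      (Equiv.sigmaFiberEquiv r).symm.trans
        ((Equiv.sigmaCongrRight fun e => Classical.choice (hfib e)).trans (Equiv.sigmaEquivProd _ _))
    rw [Nat.card_congr E, Nat.card_prod, Nat.card_eq_fintype_card (α := Fin k ↪ Fin q),
      Fintype.card_embedding_eq, Fintype.card_fin, Fintype.card_fin]
    exact Dvd.intro _ rfl
  · have : IsEmpty (H.Coloring (Fin q)) := ⟨fun C => he ⟨r C⟩⟩
    rw [Nat.card_of_isEmpty]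
    exact dvd_zero _

/-- removing a vertex -/
theorem del_card {V : Type} (G : SimpleGraph V) (w : V) (q m : ℕ)
    (h : ∀ C : (G.induce {v | v ≠ w}).Coloring (Fin q),
      Nat.card {c : Fin q // ∀ v (hv : G.Adj w v), C ⟨v, hv.ne'⟩ ≠ c} = m) (hm : m ≠ 0) :
    cnt G q = Nat.card ((G.induce {v | v ≠ w}).Coloring (Fin q)) * m := by
  classical
  let F : (G.induce {v | v ≠ w}).Coloring (Fin q) → Type := fun C =>
    {c : Fin q // ∀ v (hv : G.Adj w v), C ⟨v, hv.ne'⟩ ≠ c}
  have hF : ∀ C, Nonempty (F C ≃ Fin m) := by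
    intro C
    have h1 : Nat.card (F C) = m := h C
    exact ⟨Finite.equivFinOfCardEq h1⟩
  let E : G.Coloring (Fin q) ≃ {p : (G.induce {v | v ≠ w}).Coloring (Fin q) × Fin q //
      ∀ v (hv : G.Adj w v), p.1 ⟨v, hv.ne'⟩ ≠ p.2} :=
    { toFun := fun C => ⟨(SimpleGraph.Coloring.mk (fun v => C v.1) (fun {u v} huv => C.valid huv),
        C w), fun v hv e => C.valid hv e.symm⟩
      invFun := fun p => SimpleGraph.Coloring.mk (fun v => if hv : v ≠ w then p.1.1 ⟨v, hv⟩ else p.1.2)
        (fun {u v} huv => by
          by_cases hu : u ≠ w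
          · by_cases hv : v ≠ w
            · rw [dif_pos hu, dif_pos hv]
              exact p.1.1.valid (show (G.induce {v | v ≠ w}).Adj ⟨u, hu⟩ ⟨v, hv⟩ from huv)
            · rw [dif_pos hu, dif_neg hv]
              push Not at hv
              subst hv
              exact p.2 u huv.symm
          · have hv : v ≠ w := by
              push Not at hu
              subst hu
              exact huv.ne'
            rw [dif_neg hu, dif_pos hv]
            push Not at hu
            subst hu
            exact (p.2 v huv).symm)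
      left_inv := fun C => by
        apply DFunLike.ext
        intro v
        change (if hv : v ≠ w then C v else C w) = C v
        split_ifs with hv
        · rfl
        · push Not at hv
          rw [hv]
      right_inv := fun p => by
        obtain ⟨⟨C, c⟩, hc⟩ := p
        refine Subtype.ext (Prod.ext ?_ ?_)
        · apply DFunLike.ext
          intro v
          change (if hv : v.1 ≠ w then C ⟨v.1, hv⟩ else c) = C v
          rw [dif_pos (show v.1 ≠ w from v.2)]
        · change (if hv : w ≠ w then C ⟨w, hv⟩ else c) = c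
          rw [dif_neg (by simp)] }
  let E2 := E.trans (Equiv.subtypeProdEquivSigmaSubtype
    (fun (C : (G.induce {v | v ≠ w}).Coloring (Fin q)) (c : Fin q) => ∀ v (hv : G.Adj w v), C ⟨v, hv.ne'⟩ ≠ c))
  unfold cnt
  rw [Nat.card_congr E2, Nat.card_congr ((Equiv.sigmaCongrRight fun C => Classical.choice (hF C)).trans
    (Equiv.sigmaEquivProd _ _)), Nat.card_prod, Nat.card_eq_fintype_card (α := Fin m), Fintype.card_fin]

theorem degg : S_DEGG := by
  intro V _ G w a hw ⟨x, y, hxy, hwx, hwy⟩ q hq
  classical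
  have hwa : G.Adj w a := (hw a).2 rfl
  have h1 := del_card G w q (q - 1) (fun C => by
    have e : {c : Fin q // ∀ v (hv : G.Adj w v), C ⟨v, hv.ne'⟩ ≠ c} ≃
        {c : Fin q // c ≠ C ⟨a, hwa.ne'⟩} := Equiv.subtypeEquivRight (fun c => by
      constructor
      · intro h; exact (h a hwa).symm
      · intro h v hv
        have hva := (hw v).1 hv
        subst hva
        exact h.symm)
    rw [Nat.card_congr e, Nat.card_eq_fintype_card, Fintype.card_subtype_compl, Fintype.card_fin,
      Fintype.card_subtype_eq]) (by omega)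
  have h2 : q * (q - 1) ∣ Nat.card ((G.induce {v | v ≠ w}).Coloring (Fin q)) := by
    have := clique_dvd (G.induce {v | v ≠ w}) 2 q ![⟨x, hwx.symm⟩, ⟨y, hwy.symm⟩] (by
      intro i j hij
      fin_cases i <;> fin_cases j
      · exact absurd rfl hij
      · exact hxy
      · exact hxy.symm
      · exact absurd rfl hij)
    have e : q.descFactorial 2 = q * (q - 1) := by
      rw [Nat.descFactorial_succ, Nat.descFactorial_one]; ring
    rwa [e] at this
  rw [h1]
  have e : q * (q - 1) ^ 2 = q * (q - 1) * (q - 1) := by ring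
  rw [e]
  exact Nat.mul_dvd_mul_right h2 _

theorem deg2 : S_DEG2 := by
  intro V _ G w a b hab hw ⟨x, y, z, hxy, hyz, hxz, hwx, hwy, hwz⟩ q hq
  classical
  have hwa : G.Adj w a := (hw a).2 (Or.inl rfl)
  have hwb : G.Adj w b := (hw b).2 (Or.inr rfl)
  have h1 := del_card G w q (q - 2) (fun C => by
    have hne : C ⟨a, hwa.ne'⟩ ≠ C ⟨b, hwb.ne'⟩ :=
      C.valid (show (G.induce {v | v ≠ w}).Adj ⟨a, hwa.ne'⟩ ⟨b, hwb.ne'⟩ from hab)
    have e : {c : Fin q // ∀ v (hv : G.Adj w v), C ⟨v, hv.ne'⟩ ≠ c} ≃
        {c : Fin q // c ∈ (Finset.univ \ {C ⟨a, hwa.ne'⟩, C ⟨b, hwb.ne'⟩} : Finset (Fin q))} :=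
      Equiv.subtypeEquivRight (fun c => by
        rw [Finset.mem_sdiff, Finset.mem_insert, Finset.mem_singleton, not_or]
        constructor
        · intro h; exact ⟨Finset.mem_univ _, (h a hwa).symm, (h b hwb).symm⟩
        · rintro ⟨_, h, h'⟩ v hv
          rcases (hw v).1 hv with hva | hva
          · subst hva
            exact fun e => h e.symm
          · subst hva
            exact fun e => h' e.symm)
    rw [Nat.card_congr e, Nat.card_eq_fintype_card, Fintype.card_coe, Finset.card_sdiff_of_subset
      (Finset.subset_univ _), Finset.card_univ, Fintype.card_fin, Finset.card_pair hne]) (by omega)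
  have h2 : q * (q - 1) * (q - 2) ∣ Nat.card ((G.induce {v | v ≠ w}).Coloring (Fin q)) := by
    have := clique_dvd (G.induce {v | v ≠ w}) 3 q ![⟨x, hwx.symm⟩, ⟨y, hwy.symm⟩, ⟨z, hwz.symm⟩] (by
      intro i j hij
      fin_cases i <;> fin_cases j
      · exact absurd rfl hij
      · exact hxy
      · exact hxz
      · exact hxy.symm
      · exact absurd rfl hij
      · exact hyz
      · exact hxz.symm
      · exact hyz.symm
      · exact absurd rfl hij)
    have e : q.descFactorial 3 = q * (q - 1) * (q - 2) := by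
      rw [Nat.descFactorial_succ, Nat.descFactorial_succ, Nat.descFactorial_one]; ring
    rwa [e] at this
  rw [h1]
  have e : q * (q - 1) * (q - 2) ^ 2 = q * (q - 1) * (q - 2) * (q - 2) := by ring
  rw [e]
  exact Nat.mul_dvd_mul_right h2 _

end Pool.Agent.P8H20.RC
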