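import Pool.Agent.P8H79.RC.Stm

set_option autoImplicit false

namespace Pool.Agent.P8H20.RC

open Finset Pool.Agent.P8H79.RC

/-- six colourings: they are determined by the colours of a triangle -/
theorem unique {V : Type} (G : SimpleGraph V) (h6 : cnt G 3 = 6) {a b c : V}
    (hab : G.Adj a b) (hbc : G.Adj b c) (hac : G.Adj a c) (C C' : G.Coloring (Fin 3))
    (ea : C a = C' a) (eb : C b = C' b) (ec : C c = C' c) : C = C' := by
  classical
  have hfin : Finite (G.Coloring (Fin 3)) := Nat.finite_of_card_ne_zero (by
    unfold cnt at h6; rw [h6]; norm_num)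
  have hall : ∀ x : Fin 3, x = C a ∨ x = C b ∨ x = C c := by
    have h1 := C.valid hab
    have h2 := C.valid hbc
    have h3 := C.valid hac
    revert h1 h2 h3
    generalize C a = p
    generalize C b = q
    generalize C c = r
    decide +revert
  let f : Equiv.Perm (Fin 3) → G.Coloring (Fin 3) := fun σ =>
    SimpleGraph.Coloring.mk (fun v => σ (C v)) (fun {v w} h e => C.valid h (σ.injective e))
  have hf : ∀ σ v, f σ v = σ (C v) := fun σ v => rfl
  have hinj : Function.Injective f := by
    intro σ τ h
    apply Equiv.ext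
    intro x
    rcases hall x with rfl | rfl | rfl
    · rw [← hf, ← hf, h]
    · rw [← hf, ← hf, h]
    · rw [← hf, ← hf, h]
  have hcard : Nat.card (Equiv.Perm (Fin 3)) = Nat.card (G.Coloring (Fin 3)) := by
    have h1 : Nat.card (G.Coloring (Fin 3)) = 6 := h6
    rw [h1, Nat.card_eq_fintype_card, Fintype.card_perm, Fintype.card_fin]
    rfl
  have hbij : Function.Bijective f := (Nat.bijective_iff_injective_and_card f).2 ⟨hinj, hcard⟩
  obtain ⟨σ, hσ⟩ := hbij.2 C'
  have hσ1 : ∀ x, σ x = x := by
    intro x
    rcases hall x with rfl | rfl | rfl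
    · rw [← hf, hσ, ea]
    · rw [← hf, hσ, eb]
    · rw [← hf, hσ, ec]
  apply DFunLike.ext
  intro v
  rw [← hσ, hf, hσ1]

theorem exists_col {V : Type} (G : SimpleGraph V) (h6 : cnt G 3 = 6) : Nonempty (G.Coloring (Fin 3)) := by
  by_contra h
  rw [not_nonempty_iff] at h
  unfold cnt at h6
  rw [Nat.card_of_isEmpty] at h6
  norm_num at h6

theorem con : S_CON := by
  intro V _ G h6 ⟨a, b, c, hab, hbc, hac⟩
  classical
  obtain ⟨C⟩ := exists_col G h6
  have key : ∀ w, G.Reachable w a := by
    intro w
    by_contra hw
    have hb : ¬ G.Reachable w b := fun h => hw (h.trans hab.symm.reachable)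
    have hc : ¬ G.Reachable w c := fun h => hw (h.trans hac.symm.reachable)
    let C' : G.Coloring (Fin 3) := SimpleGraph.Coloring.mk
      (fun v => if G.Reachable w v then Equiv.swap (C w) (C w + 1) (C v) else C v)
      (fun {u v} huv => by
        by_cases hu : G.Reachable w u
        · have hv : G.Reachable w v := hu.trans huv.reachable
          rw [if_pos hu, if_pos hv]
          intro e
          exact C.valid huv ((Equiv.swap (C w) (C w + 1)).injective e)
        · have hv : ¬ G.Reachable w v := fun h => hu (h.trans huv.symm.reachable)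
          rw [if_neg hu, if_neg hv]
          exact C.valid huv)
    have hC' : ∀ v, C' v = if G.Reachable w v then Equiv.swap (C w) (C w + 1) (C v) else C v :=
      fun v => rfl
    have h1 := unique G h6 hab hbc hac C C' (by rw [hC', if_neg hw]) (by rw [hC', if_neg hb])
      (by rw [hC', if_neg hc])
    have h2 : C w = C' w := by rw [← h1]
    rw [hC', if_pos (SimpleGraph.Reachable.refl w), Equiv.swap_apply_left] at h2
    revert h2
    generalize C w = x
    decide +revert
  haveI : Nonempty V := ⟨a⟩
  exact SimpleGraph.Connected.mk (fun u v => (key u).trans (key v).symm)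

theorem deg1 : S_DEG1 := by
  intro V _ G h6 ⟨a, b, c, hab, hbc, hac⟩ w
  classical
  by_contra hcon
  push Not at hcon
  have hcon' : ∀ x y, G.Adj w x → G.Adj w y → x = y := by
    intro x y hx hy
    by_contra hne
    exact hcon x y hne hx hy
  have hwa : a ≠ w := by
    rintro rfl
    exact hbc.ne (hcon' b c hab hac)
  have hwb : b ≠ w := by
    rintro rfl
    exact hac.ne (hcon' a c hab.symm hbc)
  have hwc : c ≠ w := by
    rintro rfl
    exact hab.ne (hcon' a b hac.symm hbc.symm)
  obtain ⟨C⟩ := exists_col G h6
  obtain ⟨x, hx1, hx2⟩ : ∃ x : Fin 3, x ≠ C w ∧ ∀ v, G.Adj w v → C v ≠ x := by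
    by_cases hn : ∃ v, G.Adj w v
    · obtain ⟨v, hv⟩ := hn
      have : ∀ p q : Fin 3, ∃ x : Fin 3, x ≠ p ∧ q ≠ x := by decide
      obtain ⟨x, h1, h2⟩ := this (C w) (C v)
      refine ⟨x, h1, fun u hu => ?_⟩
      rw [hcon' u v hu hv]
      exact h2
    · push Not at hn
      have : ∀ p : Fin 3, ∃ x : Fin 3, x ≠ p := by decide
      obtain ⟨x, h1⟩ := this (C w)
      exact ⟨x, h1, fun v hv => absurd hv (hn v)⟩
  let C' : G.Coloring (Fin 3) := SimpleGraph.Coloring.mk
    (fun v => if v = w then x else C v)
    (fun {u v} huv => by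
      by_cases hu : u = w
      · have hv : v ≠ w := by
          rintro rfl
          exact huv.ne hu
        rw [if_pos hu, if_neg hv]
        rw [hu] at huv
        exact (hx2 v huv).symm
      · by_cases hv : v = w
        · rw [if_neg hu, if_pos hv]
          rw [hv] at huv
          exact hx2 u huv.symm
        · rw [if_neg hu, if_neg hv]
          exact C.valid huv)
  have hC' : ∀ v, C' v = if v = w then x else C v := fun v => rfl
  have h1 := unique G h6 hab hbc hac C C' (by rw [hC', if_neg hwa]) (by rw [hC', if_neg hwb])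
    (by rw [hC', if_neg hwc])
  have h2 : C w = C' w := by rw [← h1]
  rw [hC', if_pos rfl] at h2
  exact hx1 h2.symm

end Pool.Agent.P8H20.RC
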