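import Pool.Agent.P8H79.RC.Stm4
import Pool.Agent.P8H1.RC.Link

set_option autoImplicit false

/-!
Packages N3 and N6 of the project RC.
-/

namespace Pool.Agent.P8H20.RC

open Pool.Agent.P8H79.RC

theorem csq_adj (n : ℕ) (i j : ZMod n) : (Csq n).Adj i j ↔
    i ≠ j ∧ ((j - i = 1 ∨ j - i = 2) ∨ (i - j = 1 ∨ i - j = 2)) := by
  unfold Csq
  rw [SimpleGraph.fromRel_adj]

theorem csq3 : Csq 3 = ⊤ := by
  ext i j
  rw [csq_adj, SimpleGraph.top_adj]
  revert i j
  decide

open Classical in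
theorem eq_top {V : Type} [Fintype V] (G : SimpleGraph V)
    (h : (Fintype.card V).choose 2 ≤ G.edgeFinset.card) : G = ⊤ := by
  have h1 : G.edgeFinset ⊆ (⊤ : SimpleGraph V).edgeFinset := SimpleGraph.edgeFinset_mono le_top
  have h2 : (⊤ : SimpleGraph V).edgeFinset.card ≤ G.edgeFinset.card := by
    refine le_trans (le_of_eq ?_) h
    convert SimpleGraph.card_edgeFinset_top_eq_card_choose_two (V := V)
  exact SimpleGraph.edgeFinset_inj.1 (Finset.eq_of_subset_of_card_le h1 h2)

theorem card_inst {V : Type} (G : SimpleGraph V) (i1 i2 : Fintype G.edgeSet) :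
    (@SimpleGraph.edgeFinset V G i1).card = (@SimpleGraph.edgeFinset V G i2).card := by
  rw [Subsingleton.elim i1 i2]

open Classical in
theorem n3 : S_N3 := by
  refine ⟨?_, ?_⟩
  · intro V _ G hV hc
    rw [Pool.Agent.P8H1.RC.edge_card] at hc
    have hG : G = ⊤ := eq_top G (by rw [hV, hc]; decide)
    have e : V ≃ ZMod 3 := Fintype.equivOfCardEq (by rw [hV, ZMod.card])
    rw [hG, csq3]
    exact ⟨⟨e, by intro a b; simp⟩⟩
  · rw [Pool.Agent.P8H1.RC.edge_card, csq3]
    have h := SimpleGraph.card_edgeFinset_top_eq_card_choose_two (V := ZMod 3)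
    rw [ZMod.card] at h
    exact (card_inst _ _ _).trans (h.trans (by decide))

theorem csq6_tur (a b : Fin 6) : (SimpleGraph.turanGraph 6 3).Adj a b ↔ (Csq 6).Adj a b := by
  have h : ∀ a b : Fin 6, (a.val % 3 ≠ b.val % 3) ↔
      ((a : ZMod 6) ≠ (b : ZMod 6) ∧ (((b : ZMod 6) - (a : ZMod 6) = 1 ∨ (b : ZMod 6) - (a : ZMod 6) = 2) ∨
        ((a : ZMod 6) - (b : ZMod 6) = 1 ∨ (a : ZMod 6) - (b : ZMod 6) = 2))) := by
    decide
  exact (h a b).trans (csq_adj 6 a b).symm

/-- the isomorphism -/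
def iso6 : Csq 6 ≃g SimpleGraph.turanGraph 6 3 where
  toEquiv := Equiv.refl (Fin 6)
  map_rel_iff' := by
    intro a b
    exact csq6_tur a b

open Classical in
theorem edges6 : (Csq 6).edgeFinset.card = 12 := by
  rw [iso6.card_edgeFinset_eq]
  have h := SimpleGraph.card_edgeFinset_turanGraph (n := 6) (r := 3)
  have h2 : (6 ^ 2 - (6 % 3) ^ 2) * (3 - 1) / (2 * 3) + (6 % 3).choose 2 = 12 := by decide
  rw [h2] at h
  rw [← h]

open Classical in
theorem n6 : S_N6 := by
  refine ⟨?_, ?_, ?_, ?_⟩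
  · intro V _ G hV hcf hc
    rw [Pool.Agent.P8H1.RC.edge_card] at hc
    have hmax : G.IsTuranMaximal 3 := by
      refine ⟨hcf, ?_⟩
      intro H hinst hH
      have h := SimpleGraph.CliqueFree.card_edgeFinset_le (r := 3) (G := H) hH
      simp only [hV] at h
      have h2 : (6 ^ 2 - (6 % 3) ^ 2) * (3 - 1) / (2 * 3) + (6 % 3).choose 2 = 12 := by decide
      rw [h2] at h
      have h3 : G.edgeFinset.card = 12 := hc
      omega
    obtain ⟨f⟩ := (SimpleGraph.isTuranMaximal_iff_nonempty_iso_turanGraph (by norm_num)).1 hmax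
    have f' : G ≃g SimpleGraph.turanGraph 6 3 := by rw [hV] at f; exact f
    exact ⟨f'.trans iso6.symm⟩
  · have h := SimpleGraph.turanGraph_cliqueFree (n := 6) (r := 3) (by norm_num)
    exact h.comap iso6.isContained
  · rw [Pool.Agent.P8H1.RC.edge_card]
    convert edges6
  · unfold cnt
    have hne : Nonempty ((Csq 6).Coloring (Fin 3)) := by
      have hc : (SimpleGraph.turanGraph 6 3).Coloring (Fin 3) :=
        SimpleGraph.Coloring.mk (fun v => (⟨v.val % 3, Nat.mod_lt _ (by norm_num)⟩ : Fin 3)) (by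
          intro v w h h2
          exact h (congrArg Fin.val h2))
      exact ⟨hc.comp iso6.toHom⟩
    have hfin : Finite ((Csq 6).Coloring (Fin 3)) := by
      have : Finite (ZMod 6 → Fin 3) := Pi.finite
      exact Finite.of_injective (fun c : (Csq 6).Coloring (Fin 3) => (c : ZMod 6 → Fin 3))
        DFunLike.coe_injective
    exact Nat.card_pos

end Pool.Agent.P8H20.RC
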